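import Pool.Agent.Helper40_Dio.FStmt

/-!
# Module PS3: type `s`: bounds for `g`
-/

set_option autoImplicit false

namespace Pool.Agent.DIO.H87

open Pool.Agent.DIO

theorem ps3_int (A B C G S m n X : ℤ) (hA : 0 < A) (hAB : A < B) (hG : 0 < G) (hS0 : 0 ≤ S)
    (hS : S * S = A * C + 1) (hc1 : 4 * (A * B * G) < C) (hc2 : C ≤ 16 * (A * B * G))
    (hn1 : 1 ≤ n) (hX : 100 ≤ X) (hnX : n ≤ X) (hm0 : 0 ≤ m) (hm : m < 2 * n)
    (hrel : 2 * 1 * A * m * (m + 1) + S * (2 * m + 1) - 2 * 1 * B * n ^ 2 -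
      (A + B - G) * n = 0) (hT : X ^ 16 * 2 ^ 20 < A * B) :
    G ≤ 4 * B * X ∧ A ^ 2 * G ≤ 4 * B * X ^ 4 ∧ B ≤ X ^ 4 * (A ^ 2 * G) := by
  have hB : 0 < B := hA.trans hAB
  have hn0 : 0 < n := by linarith
  have hX0 : 0 < X := by linarith
  have e : 2 * 1 * A * m * (m + 1) + S * (2 * m + 1) - 2 * 1 * B * n ^ 2 - (A + B - G) * n =
    2 * (A * (m * (m + 1))) + S * (2 * m + 1) - 2 * (B * n ^ 2) - A * n - B * n + G * n := by ring
  rw [e] at hrel
  have f1 : 0 ≤ A * (m * (m + 1)) := by positivity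
  have f2 : 0 ≤ S * (2 * m + 1) := by positivity
  have f3 : A * n ≤ B * n := mul_le_mul_of_nonneg_right hAB.le hn0.le
  have f4 : 0 < A * n := mul_pos hA hn0
  have f5 : 0 < G * n := mul_pos hG hn0
  -- (1)
  have h1 : G ≤ 4 * B * X := by
    have h : n * G ≤ n * (2 * (B * n) + 2 * B) := by
      have e1 : n * (2 * (B * n) + 2 * B) = 2 * (B * n ^ 2) + 2 * (B * n) := by ring
      have e2 : n * G = G * n := by ring
      rw [e1, e2]
      linarith
    have h' : G ≤ 2 * (B * n) + 2 * B := le_of_mul_le_mul_left h hn0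
    have h2 : B * n ≤ B * X := mul_le_mul_of_nonneg_left hnX hB.le
    have h3 : B * 1 ≤ B * X := mul_le_mul_of_nonneg_left (by linarith) hB.le
    have e3 : 4 * B * X = 4 * (B * X) := by ring
    rw [e3]
    linarith
  -- (2)
  have hn2 : n ^ 2 ≤ X ^ 2 := pow_le_pow_left₀ hn0.le hnX 2
  have hBn2 : B * n ^ 2 ≤ B * X ^ 2 := mul_le_mul_of_nonneg_left hn2 hB.le
  have hBn : B * n ≤ B * X ^ 2 := by
    refine mul_le_mul_of_nonneg_left ?_ hB.le
    have : n * 1 ≤ n * n := mul_le_mul_of_nonneg_left hn1 hn0.le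
    have e1 : n ^ 2 = n * n := by ring
    linarith
  have hSle : S ≤ 4 * (B * X ^ 2) := by
    have h : 0 ≤ S * m := mul_nonneg hS0 hm0
    have e1 : S * (2 * m + 1) = 2 * (S * m) + S := by ring
    linarith
  have hSS : S * S ≤ (4 * (B * X ^ 2)) * (4 * (B * X ^ 2)) :=
    mul_le_mul hSle hSle hS0 (by positivity)
  have h2' : A ^ 2 * G < 4 * B * X ^ 4 := by
    have h : A * (4 * (A * B * G)) < A * C := mul_lt_mul_of_pos_left hc1 hA
    have e1 : A * (4 * (A * B * G)) = B * (4 * (A ^ 2 * G)) := by ring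
    have e2 : (4 * (B * X ^ 2)) * (4 * (B * X ^ 2)) = B * (16 * (B * X ^ 4)) := by ring
    rw [e1] at h
    rw [e2, hS] at hSS
    have h3 : B * (4 * (A ^ 2 * G)) < B * (16 * (B * X ^ 4)) := by linarith
    have h4 := lt_of_mul_lt_mul_left h3 hB.le
    have e3 : 4 * B * X ^ 4 = 4 * (B * X ^ 4) := by ring
    rw [e3]
    linarith
  refine ⟨h1, h2'.le, ?_⟩
  -- `16 A X² ≤ B`
  have hA2 : A ^ 2 ≤ A ^ 2 * G := by
    have h : A ^ 2 * 1 ≤ A ^ 2 * G := mul_le_mul_of_nonneg_left (by linarith) (by positivity)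
    linarith
  have hAX : 16 * (A * X ^ 2) ≤ B := by
    by_contra hcon
    push Not at hcon
    have g1 : B * B < (16 * (A * X ^ 2)) * (16 * (A * X ^ 2)) :=
      mul_lt_mul'' hcon hcon hB.le hB.le
    have e1 : (16 * (A * X ^ 2)) * (16 * (A * X ^ 2)) = 256 * (X ^ 4 * A ^ 2) := by ring
    have g2 : X ^ 4 * A ^ 2 ≤ X ^ 4 * (4 * B * X ^ 4) :=
      mul_le_mul_of_nonneg_left (hA2.trans h2'.le) (by positivity)
    have e2 : X ^ 4 * (4 * B * X ^ 4) = 4 * (B * X ^ 8) := by ring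
    have g3 : B * B < B * (1024 * X ^ 8) := by
      have e3 : B * (1024 * X ^ 8) = 1024 * (B * X ^ 8) := by ring
      rw [e1] at g1
      rw [e2] at g2
      rw [e3]
      linarith
    have g4 : B < 1024 * X ^ 8 := lt_of_mul_lt_mul_left g3 hB.le
    have g5 : B * B < (1024 * X ^ 8) * (1024 * X ^ 8) := mul_lt_mul'' g4 g4 hB.le hB.le
    have g6 : A * B ≤ B * B := mul_le_mul_of_nonneg_right hAB.le hB.le
    have e4 : (1024 * X ^ 8) * (1024 * X ^ 8) = X ^ 16 * 2 ^ 20 := by ring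
    rw [e4] at g5
    linarith
  -- `m (m + 1) ≤ 4 X²`
  have hmm : m * (m + 1) ≤ 4 * X ^ 2 := by
    have h : m * (m + 1) ≤ (2 * n) * (2 * n) :=
      mul_le_mul hm.le (by linarith) (by linarith) (by linarith)
    have e1 : (2 * n) * (2 * n) = 4 * n ^ 2 := by ring
    rw [e1] at h
    linarith
  have hAm : A * (m * (m + 1)) ≤ 4 * (A * X ^ 2) := by
    have h := mul_le_mul_of_nonneg_left hmm hA.le
    linarith
  have hBn1 : B * 1 ≤ B * n := mul_le_mul_of_nonneg_left hn1 hB.le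
  have hBn1' : B * n ≤ B * n ^ 2 := by
    refine mul_le_mul_of_nonneg_left ?_ hB.le
    have : n * 1 ≤ n * n := mul_le_mul_of_nonneg_left hn1 hn0.le
    have e1 : n ^ 2 = n * n := by ring
    linarith
  have hlow : 2 * B ≤ S * (2 * m + 1) + G * n := by linarith
  have hAG : 0 < A ^ 2 * G := by positivity
  have hX2 : (10000 : ℤ) ≤ X ^ 2 := by
    have := mul_le_mul hX hX (by norm_num) hX0.le
    have e1 : X ^ 2 = X * X := by ring
    linarith only [this, e1]
  rcases le_or_gt B (G * n) with hcase | hcase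
  · calc B ≤ G * n := hcase
      _ ≤ G * X := mul_le_mul_of_nonneg_left hnX hG.le
      _ ≤ G * (X ^ 4 * A ^ 2) := by
          refine mul_le_mul_of_nonneg_left ?_ hG.le
          have h3 : X ^ 1 ≤ X ^ 4 := pow_le_pow_right₀ (by linarith) (by norm_num)
          have h4 : (1 : ℤ) ≤ A ^ 2 := by
            have := pow_pos hA 2
            linarith only [this]
          have h5 : X ^ 4 * 1 ≤ X ^ 4 * A ^ 2 := mul_le_mul_of_nonneg_left h4 (by positivity)
          linarith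
      _ = X ^ 4 * (A ^ 2 * G) := by ring
  · have hSB : B < 4 * (X * S) := by
      have h3 : S * (2 * m + 1) ≤ S * (4 * X) := mul_le_mul_of_nonneg_left (by linarith) hS0
      linarith
    have h4 : B * B < (4 * (X * S)) * (4 * (X * S)) := mul_lt_mul'' hSB hSB hB.le hB.le
    have e1 : (4 * (X * S)) * (4 * (X * S)) = 16 * X ^ 2 * (S * S) := by ring
    rw [e1, hS] at h4
    have h5 : A * C + 1 ≤ 17 * (A ^ 2 * B * G) := by
      have h6 : A * C ≤ A * (16 * (A * B * G)) := mul_le_mul_of_nonneg_left hc2 hA.le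
      have h7 : 0 < A ^ 2 * B * G := by positivity
      have e2 : A * (16 * (A * B * G)) = 16 * (A ^ 2 * B * G) := by ring
      rw [e2] at h6
      linarith
    have h6 : 16 * X ^ 2 * (A * C + 1) ≤ 16 * X ^ 2 * (17 * (A ^ 2 * B * G)) :=
      mul_le_mul_of_nonneg_left h5 (by positivity)
    have e3 : 16 * X ^ 2 * (17 * (A ^ 2 * B * G)) = B * (272 * X ^ 2 * (A ^ 2 * G)) := by ring
    rw [e3] at h6
    have h7 : B < 272 * X ^ 2 * (A ^ 2 * G) := lt_of_mul_lt_mul_left (h4.trans_le h6) hB.le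
    have h8 : 272 * X ^ 2 ≤ X ^ 4 := by
      have e4 : X ^ 4 = X ^ 2 * X ^ 2 := by ring
      have h9 : 10000 * X ^ 2 ≤ X ^ 2 * X ^ 2 :=
        mul_le_mul_of_nonneg_right hX2 (by positivity)
      rw [e4]
      linarith
    have h9 : 272 * X ^ 2 * (A ^ 2 * G) ≤ X ^ 4 * (A ^ 2 * G) :=
      mul_le_mul_of_nonneg_right h8 hAG.le
    linarith

theorem ps3 : Ps3Statement := by
  intro a b c r s t g u v w μ ν Y hab hN hν hY hνY hμ _ hrel hT
  have hT' : Y ^ 16 * 2 ^ 20 < a * b := by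
    refine lt_of_le_of_lt ?_ hT
    calc Y ^ 16 * 2 ^ 20 ≤ Y ^ 16 * 100 ^ 11 := Nat.mul_le_mul_left _ (by norm_num)
      _ ≤ Y ^ 16 * Y ^ 11 := Nat.mul_le_mul_left _ (Nat.pow_le_pow_left hY 11)
      _ = Y ^ 27 := by ring
      _ ≤ Y ^ 420 := Nat.pow_le_pow_right (by omega) (by norm_num)
  have h := ps3_int a b c g s μ ν Y (by exact_mod_cast hN.ha) (by exact_mod_cast hab)
    (by exact_mod_cast hN.hg) (Int.natCast_nonneg _) (by exact_mod_cast hN.hs)
    (by exact_mod_cast hN.c_gt) (by exact_mod_cast hN.c_le) (by exact_mod_cast hν)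
    (by exact_mod_cast hY) (by exact_mod_cast hνY) (Int.natCast_nonneg _)
    (by exact_mod_cast hμ) hrel (by exact_mod_cast hT')
  exact_mod_cast h

end Pool.Agent.DIO.H87
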