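import Pool.Agent.Helper40_Dio.FStmt

/-!
# Module PT3: type `t`, main case
-/

set_option autoImplicit false

namespace Pool.Agent.DIO.H87

open Pool.Agent.DIO

theorem pt3 : Pt3Statement := by
  intro a b c r s t g u v w ε μ ν Y hab hN hε hY hμ hν hdvd hag hab2
  have hY4 : 100 * Y ^ 4 ≤ Y ^ 420 := by
    calc 100 * Y ^ 4 ≤ Y * Y ^ 4 := Nat.mul_le_mul_right _ hY
      _ = Y ^ 5 := by ring
      _ ≤ Y ^ 420 := Nat.pow_le_pow_right (by omega) (by norm_num)
  have hag1 : 100 * (Y : ℤ) ^ 4 ≤ a * g := by exact_mod_cast hY4.trans hag.le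
  have hab1 : 100 * (Y : ℤ) ^ 4 ≤ a * b := by exact_mod_cast hY4.trans hab2.le
  have hc : 4 * ((a : ℤ) * b * g) < c := by exact_mod_cast hN.c_gt
  have ht : (t : ℤ) * t = b * c + 1 := by exact_mod_cast hN.ht
  have hba : (a : ℤ) < b := by exact_mod_cast hab
  have hX : (100 : ℤ) ≤ Y := by exact_mod_cast hY
  have hm : (μ : ℤ) ≤ Y := by exact_mod_cast hμ
  have hn : (ν : ℤ) ≤ Y := by exact_mod_cast hν
  have hm0 : (0 : ℤ) ≤ μ := Int.natCast_nonneg _
  have hn0 : (0 : ℤ) ≤ ν := Int.natCast_nonneg _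
  have ha0 : (0 : ℤ) < a := by exact_mod_cast hN.ha
  have hg0 : (0 : ℤ) < g := by exact_mod_cast hN.hg
  have ht0 : (0 : ℤ) ≤ t := Int.natCast_nonneg _
  unfold relT at hdvd
  generalize (a : ℤ) = A at *
  generalize (b : ℤ) = B at *
  generalize (c : ℤ) = C at *
  generalize (g : ℤ) = G at *
  generalize (t : ℤ) = t at *
  generalize (μ : ℤ) = m at *
  generalize (ν : ℤ) = n at *
  generalize (Y : ℤ) = X at *
  have hB0 : 0 < B := ha0.trans hba
  have hX2 : (10000 : ℤ) ≤ X ^ 2 := by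
    have := mul_le_mul hX hX (by norm_num) (by linarith)
    have e1 : X ^ 2 = X * X := by ring
    linarith only [this, e1]
  have hbX : 400 * (B * X ^ 4) < C := by
    have : B * (100 * X ^ 4) ≤ B * (A * G) := mul_le_mul_of_nonneg_left hag1 hB0.le
    nlinarith
  have hgX : 400 * (G * X ^ 4) < C := by
    have : G * (100 * X ^ 4) ≤ G * (A * B) := mul_le_mul_of_nonneg_left hab1 hg0.le
    nlinarith
  have hX4 : X ^ 4 = X ^ 2 * X ^ 2 := by ring
  have hB1 : 400 * 10000 * (B * X ^ 2) < C := by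
    have : B * X ^ 2 * 10000 ≤ B * X ^ 2 * X ^ 2 := mul_le_mul_of_nonneg_left hX2 (by positivity)
    nlinarith
  have hXX : X ≤ X ^ 2 := by nlinarith
  have hG1 : 400 * (G * X) < C := by
    have h1 : X ≤ X ^ 4 := by nlinarith
    have : G * X ≤ G * X ^ 4 := mul_le_mul_of_nonneg_left h1 hg0.le
    linarith
  have hC0 : 0 < C := by
    have : 0 ≤ G * X := by positivity
    linarith
  -- `4 X t ≤ C / 4`
  have hT1 : 16 * (X * t) < C := by
    have h1 : (16 * (X * t)) ^ 2 < C ^ 2 := by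
      have h2 : (16 * (X * t)) ^ 2 = 256 * X ^ 2 * (t * t) := by ring
      rw [h2, ht]
      have h3 : 400 * 10000 * (B * X ^ 2) * C ≤ C * C := mul_le_mul_of_nonneg_right hB1.le hC0.le
      have hBC : 1 ≤ B * C := by
        have := mul_pos hB0 hC0
        linarith
      have h4 : 1 * X ^ 2 ≤ (B * C) * X ^ 2 :=
        mul_le_mul_of_nonneg_right hBC (by positivity)
      have h5 : 0 < B * C * X ^ 2 := mul_pos (mul_pos hB0 hC0) (by positivity)
      have e1 : 256 * X ^ 2 * (B * C + 1) = 256 * (B * C * X ^ 2) + 256 * (1 * X ^ 2) := by ring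
      have e2 : 400 * 10000 * (B * X ^ 2) * C = 400 * 10000 * (B * C * X ^ 2) := by ring
      have e3 : C ^ 2 = C * C := by ring
      rw [e1, e3]
      rw [e2] at h3
      linarith
    exact lt_of_pow_lt_pow_left₀ 2 hC0.le h1
  have hn2 : n * (n + 1) ≤ 2 * X ^ 2 := by nlinarith
  have hm2 : m ^ 2 ≤ X ^ 2 := pow_le_pow_left₀ hm0 hm 2
  have b1 : B * (n * (n + 1)) ≤ 2 * (B * X ^ 2) := by
    have := mul_le_mul_of_nonneg_left hn2 hB0.le
    linarith
  have b1' : 0 ≤ B * (n * (n + 1)) := by positivity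
  have b2 : A * m ^ 2 ≤ B * X ^ 2 :=
    mul_le_mul hba.le hm2 (by positivity) hB0.le
  have b2' : 0 ≤ A * m ^ 2 := by positivity
  have b3 : t * (2 * n + 1) ≤ 3 * (X * t) := by
    have : t * (2 * n + 1) ≤ t * (3 * X) := mul_le_mul_of_nonneg_left (by linarith) ht0
    linarith
  have b3' : 0 ≤ t * (2 * n + 1) := by positivity
  have b4 : (A + B) * m ≤ 2 * (B * X ^ 2) := by
    have h1 : (A + B) * m ≤ (2 * B) * X ^ 2 :=
      mul_le_mul (by linarith) (hm.trans hXX) hm0 (by positivity)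
    linarith
  have b4' : 0 ≤ (A + B) * m := by positivity
  have b5 : G * m ≤ G * X := mul_le_mul_of_nonneg_left hm hg0.le
  have b5' : 0 ≤ G * m := by positivity
  have hz : 2 * ε * B * n * (n + 1) + t * (2 * n + 1) - 2 * ε * A * m ^ 2 -
      (A + B - G) * m = 0 := by
    apply Int.eq_zero_of_abs_lt_dvd hdvd
    rw [abs_lt]
    rcases hε with rfl | rfl
    · have e : 2 * 1 * B * n * (n + 1) + t * (2 * n + 1) - 2 * 1 * A * m ^ 2 - (A + B - G) * m =
        2 * (B * (n * (n + 1))) + t * (2 * n + 1) - 2 * (A * m ^ 2) - (A + B) * m + G * m := by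
        ring
      rw [e]
      constructor <;> linarith
    · have e : 2 * -1 * B * n * (n + 1) + t * (2 * n + 1) - 2 * -1 * A * m ^ 2 -
        (A + B - G) * m =
        -(2 * (B * (n * (n + 1)))) + t * (2 * n + 1) + 2 * (A * m ^ 2) - (A + B) * m + G * m := by
        ring
      rw [e]
      constructor <;> linarith
  -- `t ≤ 8 B X²`
  have hT2 : t ≤ 8 * (B * X ^ 2) := by
    have h1 : t ≤ t * (2 * n + 1) := by
      have : 0 ≤ t * n := mul_nonneg ht0 hn0
      linarith
    have e0 : 0 ≤ B * X ^ 2 := by positivity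
    rcases hε with rfl | rfl
    · have e : 2 * 1 * B * n * (n + 1) + t * (2 * n + 1) - 2 * 1 * A * m ^ 2 - (A + B - G) * m =
        2 * (B * (n * (n + 1))) + t * (2 * n + 1) - 2 * (A * m ^ 2) - (A + B) * m + G * m := by
        ring
      rw [e] at hz
      linarith
    · have e : 2 * -1 * B * n * (n + 1) + t * (2 * n + 1) - 2 * -1 * A * m ^ 2 -
        (A + B - G) * m =
        -(2 * (B * (n * (n + 1)))) + t * (2 * n + 1) + 2 * (A * m ^ 2) - (A + B) * m + G * m := by
        ring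
      rw [e] at hz
      linarith
  have h5 : t * t ≤ (8 * (B * X ^ 2)) * (8 * (B * X ^ 2)) :=
    mul_le_mul hT2 hT2 ht0 (by positivity)
  rw [ht] at h5
  have h6 : B * (4 * (A * B * G)) < B * C := mul_lt_mul_of_pos_left hc hB0
  have h7 : B * B * (100 * X ^ 4) ≤ B * B * (A * G) :=
    mul_le_mul_of_nonneg_left hag1 (by positivity)
  have h8 : 0 < B * B * X ^ 4 := by positivity
  have e1 : B * (4 * (A * B * G)) = 4 * (B * B * (A * G)) := by ring
  have e2 : B * B * (100 * X ^ 4) = 100 * (B * B * X ^ 4) := by ring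
  have e3 : 8 * (B * X ^ 2) * (8 * (B * X ^ 2)) = 64 * (B * B * X ^ 4) := by ring
  rw [e1] at h6
  rw [e2] at h7
  rw [e3] at h5
  linarith

end Pool.Agent.DIO.H87
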